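import Pool.Agent.Helper54.HQ.Bridge
import Pool.Agent.Helper3.HJ.Fin2

/-!
# HJ: from the internal statement to the definitions of the hand-in
-/

set_option autoImplicit false

namespace Pool.Agent.Helper3.HJ

open Polynomial Filter
open Pool.Agent.Helper54
open Pool.Agent.Helper54.HQR (family trivialFamily mem_family_iff mem_trivialFamily_iff)

theorem main2 (hU : HQ.StUp0) (h : StFin2) (g : ℕ) (hg : 1 ≤ g) :
    ∃ δ : ℝ, 0 < δ ∧ ∀ᶠ H : ℕ in atTop,
      δ * ((family (2 * g + 1) H).ncard : ℝ) ≤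
        (({f ∈ trivialFamily (2 * g + 1) H | IsTameTwist f} : Set ℤ[X]).ncard : ℝ) := by
  obtain ⟨δ, hδ, h1⟩ := h g hg
  refine ⟨δ, hδ, ?_⟩
  filter_upwards [h1, eventually_ge_atTop 1] with H hH hH1
  have e1 : family (2 * g + 1) H = HQ.Fam0 (2 * g + 1) H := Set.ext fun f => mem_family_iff
  have hfin : ({f ∈ trivialFamily (2 * g + 1) H | IsTameTwist f} : Set ℤ[X]).Finite :=
    (hU g H hg hH1).1.subset fun f hf => mem_family_iff.1 hf.1.1
  rw [e1]
  refine hH.trans ?_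
  have h2 : {f | f ∈ HQ.Fam0 (2 * g + 1) H ∧ Irreducible (HQ.fK f) ∧ (HQ.Triv f ∧ IsTameTwist f)} ⊆
      {f ∈ trivialFamily (2 * g + 1) H | IsTameTwist f} :=
    fun f hf => ⟨mem_trivialFamily_iff hf.1 hf.2.1 hf.2.2.1, hf.2.2.2⟩
  exact_mod_cast Set.ncard_le_ncard h2 hfin

end Pool.Agent.Helper3.HJ
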