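import Pool.Agent.Helper54.HQ.DefsQ

/-!
# Odd degree hyperelliptic Jacobians over `ℚ`: tame quadratic twists of regular models
-/

set_option autoImplicit false

namespace Pool.Agent.Helper3.HJ

open Polynomial

/-- `h` is monic, `ℤ[x] / (h)` is regular, `h` is irreducible modulo `2` and has at most one real
root; `D` is squarefree and every prime `p` dividing `D` is `≡ 1 mod 8` and `h` is separable
modulo `p`. -/
def Tame (h : ℤ[X]) (D : ℕ) : Prop :=
  h.Monic ∧ (∀ m : Ideal ℤ[X], m.IsMaximal → h ∉ m ^ 2) ∧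
    Irreducible (h.map (Int.castRingHom (ZMod 2))) ∧
    (∀ s t : ℝ, aeval s h = 0 → aeval t h = 0 → s = t) ∧
    Squarefree D ∧
    ∀ p : ℕ, p.Prime → p ∣ D → p % 8 = 1 ∧ (h.map (Int.castRingHom (ZMod p))).Separable

/-- Up to the translation by an integer `a`, the curve `y ^ 2 = f(x)` is the quadratic twist by `D`
of `y ^ 2 = h(x)`, where `(h, D)` is tame: `f(x) = D ^ N h((x + a) / D)`, `N` the degree of `h`. -/
def IsTameTwist (f : ℤ[X]) : Prop :=
  ∃ (h : ℤ[X]) (D : ℕ) (a : ℤ), f = (h.scaleRoots (D : ℤ)).comp (X + C a) ∧ Tame h D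

end Pool.Agent.Helper3.HJ
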