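import Pool.Agent.Helper54.HQ.StF
import Pool.Agent.Helper3.HJ.Defs

/-!
# HJ: positive proportion of tame twists, all `c_1` divisible by `N` (from `HQ/M_Pos.lean`)
-/

set_option autoImplicit false

namespace Pool.Agent.Helper3.HJ

open Polynomial Finset Filter Topology Matrix IsDedekindDomain
open Pool.Agent.Helper54.HQ
open Pool.Agent.Helper3.HY (TType)

private theorem reg_fam_Pos2 {g H : ℕ} {f : ℤ[X]} (h : f ∈ Reg g H) : f ∈ Fam (2 * g + 1) H := by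
  obtain ⟨hm, hd, h1, h2, h3⟩ := h
  refine ⟨hm, hd, fun i hi => ?_⟩
  rcases Nat.eq_zero_or_pos i with h0 | h0
  · subst h0
    have hH : (0 : ℤ) ≤ (H : ℤ) ^ (2 * g + 1) := by positivity
    rw [Nat.sub_zero, abs_le]
    exact ⟨h2, by linarith⟩
  · rcases Nat.lt_or_ge (2 * g) i with h4 | h4
    · have h5 : i = 2 * g + 1 := by omega
      subst h5
      have h6 : f.coeff (2 * g + 1) = 1 := by
        rw [← hd]
        exact hm.coeff_natDegree
      rw [h6]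
      simp
    · have h5 := h1 i h0 h4
      have h6 : (1 : ℤ) ≤ 2 ^ (2 * g + 5) := one_le_pow₀ (by norm_num)
      nlinarith [abs_nonneg (f.coeff i)]

/-- Every prime at which `f` has the type `T` is a prime of separability. -/
private theorem sep_Pos2 {g : ℕ} (hg : 1 ≤ g) {P : Prm} {f : ℤ[X]}
    (h : f.map (red P) ∈ TType (kp P) g) : (f.map (red P)).Separable := by
  obtain ⟨a, p, hm, hp, hd, he⟩ := h
  rw [he]
  refine Separable.mul (separable_X_sub_C) (PerfectField.separable_of_irreducible hp) ?_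
  rw [(irreducible_X_sub_C a).coprime_iff_not_dvd]
  intro hdvd
  have h1 := natDegree_le_of_dvd ((irreducible_X_sub_C a).dvd_symm hp hdvd) (X_sub_C_ne_zero a)
  rw [natDegree_X_sub_C] at h1
  omega

private theorem sqf_Pos2 (R : Finset Prm) : Squarefree (∏ P ∈ R, (P : ℕ)) := by
  classical
  induction R using Finset.induction_on with
  | empty => simp
  | insert P R hP ih =>
    rw [Finset.prod_insert hP, Nat.squarefree_mul_iff]
    refine ⟨?_, P.2.squarefree, ih⟩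
    refine Nat.Coprime.prod_right fun Q hQ => ?_
    rw [Nat.coprime_primes P.2 Q.2]
    intro h
    exact hP (by rwa [Subtype.ext h])

private theorem dvd_Pos2 {R : Finset Prm} {p : ℕ} (hp : p.Prime) (h : p ∣ ∏ P ∈ R, (P : ℕ)) :
    ∃ P ∈ R, (P : ℕ) = p := by
  obtain ⟨P, hP, hd⟩ := (hp.prime.dvd_finsetProd_iff _).1 h
  exact ⟨P, hP, ((Nat.prime_dvd_prime_iff_eq hp P.2).1 hd).symm⟩

/-- The statement of this module. -/
def StPos2 : Prop :=
  ∀ g : ℕ, 1 ≤ g → ∃ δ : ℝ, 0 < δ ∧ ∀ᶠ H : ℕ in atTop,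
    δ * (H : ℝ) ^ ((g + 1) * (2 * g + 1)) ≤
      ({f | f ∈ Fam (2 * g + 1) H ∧ ((2 * g + 1 : ℕ) : ℤ) ∣ f.coeff (2 * g) ∧
        Irreducible (fK f) ∧ (Triv f ∧ ∃ (h : ℤ[X]) (D : ℕ), f = h.scaleRoots (D : ℤ) ∧
          Tame h D)}.ncard : ℝ)

/-- At most one real root in the region. -/
def StUniq : Prop := ∀ (g H : ℕ), 1 ≤ H → ∀ f ∈ Reg g H, ∀ a b : ℝ,
  ((fK f).map (algebraMap ℚ ℝ)).eval a = 0 → ((fK f).map (algebraMap ℚ ℝ)).eval b = 0 → a = b

theorem hPos2 (h1 : StPol) (h2 : StGood) (h3 : StFs) (h4 : StTa) (h5 : StDe4) (h6 : StUniq) :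
    StPos2 := by
  intro g hg
  obtain ⟨C, κ, hC, hpol⟩ := h1 g hg
  obtain ⟨T, δ, hT, hδ, hev⟩ := h2 g hg C κ hC
  obtain ⟨D, hDdef⟩ : ∃ D : ℕ, D = ∏ P ∈ T, (P : ℕ) := ⟨_, rfl⟩
  have hD : 1 ≤ D := by
    rw [hDdef]
    exact Nat.one_le_iff_ne_zero.2 (Finset.prod_ne_zero_iff.2 fun P _ => P.2.ne_zero)
  obtain ⟨n, hn⟩ : ∃ n : ℕ, n = (g + 1) * (2 * g + 1) := ⟨_, rfl⟩
  rw [← hn] at hev ⊢
  refine ⟨δ / (2 ^ T.card * (2 * (D : ℝ)) ^ n), by positivity, ?_⟩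
  have htend : Tendsto (fun H : ℕ => H / D) atTop atTop :=
    Nat.tendsto_div_const_atTop (by omega)
  filter_upwards [htend.eventually hev, htend.eventually (eventually_ge_atTop 1)] with H hH hH1
  obtain ⟨hfin, hcard⟩ := hH
  have hHD : H / D * D ≤ H := Nat.div_mul_le_self H D
  have hHD2 : H ≤ 2 * D * (H / D) := by
    have h5 : H < D * (H / D + 1) := Nat.lt_mul_div_succ H (by omega)
    nlinarith
  have hSfin : {f | f ∈ Fam (2 * g + 1) H ∧ ((2 * g + 1 : ℕ) : ℤ) ∣ f.coeff (2 * g) ∧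
        Irreducible (fK f) ∧ (Triv f ∧ ∃ (h : ℤ[X]) (D : ℕ), f = h.scaleRoots (D : ℤ) ∧
          Tame h D)}.Finite :=
    (h4 (2 * g + 1) H (by omega)).1.subset fun f hf => hf.1
  -- the choice of the subset
  have hch : ∀ f : ℤ[X], ∃ R : Finset Prm, f ∈ {f | f ∈ Good g (H / D) T ∧
      f ∉ BadSet g C κ (H / D) T} → R ⊆ T ∧ Irreducible (fK f) ∧
        Triv (f.scaleRoots (∏ P ∈ R, pz P)) := by
    intro f
    by_cases hf : f ∈ {f | f ∈ Good g (H / D) T ∧ f ∉ BadSet g C κ (H / D) T}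
    · obtain ⟨hi, R, hR, ht⟩ := hpol (H / D) hH1 T hT f hf.1 hf.2
      exact ⟨R, fun _ => ⟨hR, hi, ht⟩⟩
    · exact ⟨∅, fun h => absurd h hf⟩
  choose R hR using hch
  have hcast : ∀ S : Finset Prm, (∏ P ∈ S, pz P) = ((∏ P ∈ S, (P : ℕ) : ℕ) : ℤ) := by
    intro S
    push_cast
    rfl
  have hmain : hfin.toFinset.card ≤ (T.powerset ×ˢ hSfin.toFinset).card := by
    refine Finset.card_le_card_of_injOn (fun f => (R f, f.scaleRoots (∏ P ∈ R f, pz P))) ?_ ?_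
    · intro f hf
      have hf' : f ∈ {f | f ∈ Good g (H / D) T ∧ f ∉ BadSet g C κ (H / D) T} := by
        simpa using hf
      obtain ⟨hRT, hirr, htriv⟩ := hR f hf'
      have hfam := reg_fam_Pos2 hf'.1.1
      have hpos : 1 ≤ ∏ P ∈ R f, (P : ℕ) :=
        Nat.one_le_iff_ne_zero.2 (Finset.prod_ne_zero_iff.2 fun P _ => P.2.ne_zero)
      have hle : ∏ P ∈ R f, (P : ℕ) ≤ D := by
        rw [hDdef]
        exact Finset.prod_le_prod_of_subset_of_one_le' hRT fun P _ _ => P.2.one_lt.le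
      obtain ⟨hs1, -, hs3⟩ := h3 (2 * g + 1) (H / D) (∏ P ∈ R f, (P : ℕ)) hpos
      obtain ⟨a1, a2, a3⟩ := hs1 f hfam
      have hle2 : H / D * ∏ P ∈ R f, (P : ℕ) ≤ H := (Nat.mul_le_mul_left _ hle).trans hHD
      have hmono := (h3 (2 * g + 1) (H / D * ∏ P ∈ R f, (P : ℕ)) 1 le_rfl).2.2 H hle2
      simp only [Finset.coe_product, Set.mem_prod, Finset.mem_coe, Finset.mem_powerset,
        Set.Finite.mem_toFinset, Set.mem_ofPred_eq]
      rw [hcast] at htriv ⊢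
      refine ⟨hRT, hmono a1, a2 _ hf'.1.2.1, a3 hirr, htriv, f, _, rfl, hfam.1,
        h5 f hfam.1 hf'.1.2.2.2.2, hf'.1.2.2.1, ?_, sqf_Pos2 _, ?_⟩
      · intro s t hs ht
        refine h6 g (H / D) hH1 f hf'.1.1 s t ?_ ?_
        · rw [fK, Polynomial.map_map, ← hs, aeval_def, eval_map]
          rfl
        · rw [fK, Polynomial.map_map, ← ht, aeval_def, eval_map]
          rfl
      · intro p hp hpd
        obtain ⟨P, hPR, rfl⟩ := dvd_Pos2 hp hpd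
        exact ⟨hT P (hRT hPR), sep_Pos2 hg (hf'.1.2.2.2.1 P (hRT hPR))⟩
    · intro f hf f' hf' hff
      have e1 : f ∈ {f | f ∈ Good g (H / D) T ∧ f ∉ BadSet g C κ (H / D) T} := by
        simpa using hf
      have e2 : f' ∈ {f | f ∈ Good g (H / D) T ∧ f ∉ BadSet g C κ (H / D) T} := by
        simpa using hf'
      simp only [Prod.mk.injEq] at hff
      obtain ⟨b1, b2⟩ := hff
      rw [← b1, hcast] at b2
      have hpos : 1 ≤ ∏ P ∈ R f, (P : ℕ) :=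
        Nat.one_le_iff_ne_zero.2 (Finset.prod_ne_zero_iff.2 fun P _ => P.2.ne_zero)
      exact (h3 (2 * g + 1) (H / D) (∏ P ∈ R f, (P : ℕ)) hpos).2.1 f (reg_fam_Pos2 e1.1.1) f'
        (reg_fam_Pos2 e2.1.1) b2
  rw [Finset.card_product, Finset.card_powerset, ← Set.ncard_eq_toFinset_card _ hfin,
    ← Set.ncard_eq_toFinset_card _ hSfin] at hmain
  have hmain2 : δ * ((H / D : ℕ) : ℝ) ^ n ≤ 2 ^ T.card *
      ({f | f ∈ Fam (2 * g + 1) H ∧ ((2 * g + 1 : ℕ) : ℤ) ∣ f.coeff (2 * g) ∧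
        Irreducible (fK f) ∧ (Triv f ∧ ∃ (h : ℤ[X]) (D : ℕ), f = h.scaleRoots (D : ℤ) ∧
          Tame h D)}.ncard : ℝ) := by
    refine hcard.trans ?_
    exact_mod_cast hmain
  have hH2 : (H : ℝ) ^ n ≤ (2 * (D : ℝ)) ^ n * ((H / D : ℕ) : ℝ) ^ n := by
    rw [← mul_pow]
    refine pow_le_pow_left₀ (by positivity) ?_ n
    exact_mod_cast hHD2
  rw [div_mul_eq_mul_div, div_le_iff₀ (by positivity)]
  calc δ * (H : ℝ) ^ n ≤ δ * ((2 * (D : ℝ)) ^ n * ((H / D : ℕ) : ℝ) ^ n) :=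
        mul_le_mul_of_nonneg_left hH2 hδ.le
    _ = (2 * (D : ℝ)) ^ n * (δ * ((H / D : ℕ) : ℝ) ^ n) := by ring
    _ ≤ (2 * (D : ℝ)) ^ n * (2 ^ T.card *
      ({f | f ∈ Fam (2 * g + 1) H ∧ ((2 * g + 1 : ℕ) : ℤ) ∣ f.coeff (2 * g) ∧
        Irreducible (fK f) ∧ (Triv f ∧ ∃ (h : ℤ[X]) (D : ℕ), f = h.scaleRoots (D : ℤ) ∧
          Tame h D)}.ncard : ℝ)) :=
        mul_le_mul_of_nonneg_left hmain2 (by positivity)
    _ = _ := by ring

end Pool.Agent.Helper3.HJ
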